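import Mathlib

set_option autoImplicit false

namespace Pool.Agent.Results.MP_106bf9_an.Counter

open Polynomial

/-- The set of complex zeros of a polynomial. -/
def zeroSet (f : ℂ[X]) : Set ℂ := {z | f.eval z = 0}

/-- The number of distinct zeros of `P` and of its derivatives of the orders in `R`. -/
noncomputable def numZeros (P : ℂ[X]) (R : Finset ℕ) : ℕ :=
  (zeroSet P ∪ ⋃ r ∈ R, zeroSet (derivative^[r] P)).ncard

theorem result : ∃ (P : ℂ[X]) (R : Finset ℕ), 2 ≤ P.natDegree ∧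
    (∃ z w : ℂ, z ≠ w ∧ z ∈ zeroSet P ∧ w ∈ zeroSet P) ∧
    R.Nonempty ∧ (∀ r ∈ R, 1 ≤ r ∧ r ≤ P.natDegree - 1) ∧
    numZeros P R = R.card + 1 := by
  have hdeg : (X ^ 4 - C 2 * X ^ 2 + 1 : ℂ[X]).natDegree = 4 := by compute_degree!
  refine ⟨X ^ 4 - C 2 * X ^ 2 + 1, {1, 3}, by omega, ⟨1, -1, by norm_num, ?_, ?_⟩, by simp, ?_, ?_⟩
  · simp [zeroSet]; norm_num
  · simp [zeroSet]; norm_num
  · intro r hr
    simp only [Finset.mem_insert, Finset.mem_singleton] at hr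
    omega
  · have h : (zeroSet (X ^ 4 - C 2 * X ^ 2 + 1) ∪
        ⋃ r ∈ ({1, 3} : Finset ℕ), zeroSet (derivative^[r] (X ^ 4 - C 2 * X ^ 2 + 1)))
        = {0, 1, -1} := by
      have e0 : ∀ z : ℂ, eval z (X ^ 4 - C 2 * X ^ 2 + 1 : ℂ[X]) = ((z - 1) * (z + 1)) ^ 2 :=
        fun z => by simp; ring
      have e1 : ∀ z : ℂ, eval z (derivative^[1] (X ^ 4 - C 2 * X ^ 2 + 1 : ℂ[X]))
          = 4 * (z * ((z - 1) * (z + 1))) := fun z => by simp; ring
      have e3 : ∀ z : ℂ, eval z (derivative^[3] (X ^ 4 - C 2 * X ^ 2 + 1 : ℂ[X])) = 24 * z :=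
        fun z => by simp [Function.iterate_succ]; ring
      ext z
      simp only [zeroSet, Finset.mem_insert, Finset.mem_singleton, Set.iUnion_iUnion_eq_or_left,
        Set.iUnion_iUnion_eq_left, Set.mem_union, Set.mem_ofPred_eq, e0, e1, e3,
        Set.mem_insert_iff, Set.mem_singleton_iff]
      simp [sub_eq_zero, add_eq_zero_iff_eq_neg]
      tauto
    rw [numZeros, h, Set.ncard_eq_three.2 ⟨0, 1, -1, by norm_num, by norm_num, by norm_num, rfl⟩]
    rfl

end Pool.Agent.Results.MP_106bf9_an.Counter
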